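import Pool.Agent.Helper53.CTR.Goals
import Pool.Agent.Helper89.TE.GC

/-!
# PROJECT CTR (MP_8b4d68_lc), packet GC6
-/

set_option autoImplicit false

namespace Pool.Agent.Helper38.CTR

open Pool.Agent.Helper1.TE
open Pool.Agent.Helper53.CTR
open Pool.Agent.Helper65.LinSpace (dig tab dig_tab dig_lt)
open Pool.Agent.Helper89.TE (wN_cast wN_lt dig_addm)
open Finset

section

variable (c : ℕ → ℕ → ℕ) (m L R : ℕ)

/-- the linear functional -/
def Ph (p : ℕ) (δ : ℕ → ZMod (L + R)) : ZMod (L + R) :=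
  (∑ i ∈ range m, 2 * (c p i : ZMod (L + R)) * δ i) - δ m +
    ((L : ZMod (L + R)) - (nrm c m p : ZMod (L + R))) * δ (m + 1)

theorem Ph_congr (p : ℕ) {δ δ' : ℕ → ZMod (L + R)} (h : ∀ i < m + 2, δ i = δ' i) :
    Ph c m L R p δ = Ph c m L R p δ' := by
  unfold Ph
  rw [h m (by omega), h (m + 1) (by omega)]
  congr 2
  refine sum_congr rfl fun i hi => ?_
  rw [h i (by have := mem_range.1 hi; omega)]

theorem Ph_add (p : ℕ) (δ δ' : ℕ → ZMod (L + R)) :
    Ph c m L R p (fun i => δ i + δ' i) = Ph c m L R p δ + Ph c m L R p δ' := by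
  unfold Ph
  simp only [mul_add, sum_add_distrib]
  ring

theorem Ph_smul (p : ℕ) (t : ZMod (L + R)) (δ : ℕ → ZMod (L + R)) :
    Ph c m L R p (fun i => t * δ i) = t * Ph c m L R p δ := by
  unfold Ph
  have h1 : ∑ i ∈ range m, 2 * (c p i : ZMod (L + R)) * (t * δ i) =
      t * ∑ i ∈ range m, 2 * (c p i : ZMod (L + R)) * δ i := by
    rw [mul_sum]
    exact sum_congr rfl fun i _ => by ring
  beta_reduce
  rw [h1]
  ring

theorem wN_Ph (p X : ℕ) (hP : 0 < L + R) (hn : nrm c m p ≤ L) :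
    ((wN c m L R p X : ℕ) : ZMod (L + R)) =
      Ph c m L R p (fun i => (dig (L + R) X i : ZMod (L + R))) :=
  wN_cast c m L R p X hP hn

theorem Ph_v (p a : ℕ) : Ph c m L R p (fun i => (vN c m a i : ZMod (L + R))) =
    (L : ZMod (L + R)) - ((dst c m p a : ℤ) : ZMod (L + R)) := by
  have v1 : vN c m a m = nrm c m a := by simp [vN]
  have v2 : vN c m a (m + 1) = 1 := by simp [vN]
  unfold Ph
  beta_reduce
  rw [v1, v2]
  have h5 : ((dst c m p a : ℤ) : ZMod (L + R)) = (nrm c m p : ZMod (L + R)) +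
      (nrm c m a : ZMod (L + R)) -
        ∑ i ∈ range m, 2 * (c p i : ZMod (L + R)) * (c a i : ZMod (L + R)) := by
    unfold dst nrm
    push_cast
    rw [← sum_add_distrib, ← sum_sub_distrib]
    refine sum_congr rfl fun i _ => ?_
    ring
  have h6 : ∑ i ∈ range m, 2 * (c p i : ZMod (L + R)) * (vN c m a i : ZMod (L + R)) =
      ∑ i ∈ range m, 2 * (c p i : ZMod (L + R)) * (c a i : ZMod (L + R)) := by
    refine sum_congr rfl fun i hi => ?_
    have : vN c m a i = c a i := by simp [vN, mem_range.1 hi]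
    rw [this]
  rw [h5, h6]
  push_cast
  ring

theorem dst_self (p : ℕ) : dst c m p p = 0 := by simp [dst]

theorem dst_nonneg (p a : ℕ) : 0 ≤ dst c m p a := sum_nonneg fun _ _ => sq_nonneg _

theorem dig_sh1 (p X i : ℕ) (hP : 0 < L + R) (hi : i < m + 2) :
    (dig (L + R) (shN c m L R 1 p X) i : ZMod (L + R)) =
      (dig (L + R) X i : ZMod (L + R)) + (vN c m p i : ZMod (L + R)) := by
  unfold shN
  rw [dig_tab (fun i _ => Nat.mod_lt _ hP) hi, ZMod.natCast_mod, Nat.cast_add, one_mul]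

theorem dig_ush6 (p X i : ℕ) (hP : 0 < L + R) (hi : i < m + 2) (hv : vN c m p i ≤ L + R) :
    (dig (L + R) (ush6 c m L R p X) i : ZMod (L + R)) =
      (dig (L + R) X i : ZMod (L + R)) + (-6) * (vN c m p i : ZMod (L + R)) := by
  unfold ush6
  rw [dig_tab (fun i _ => Nat.mod_lt _ hP) hi, ZMod.natCast_mod, Nat.cast_add, Nat.cast_mul,
    Nat.cast_sub hv, ZMod.natCast_self]
  push_cast
  ring

theorem Ph_shl (K p : ℕ) (hP : 0 < L + R) (l : List ℕ) : ∀ z : ℕ × ℕ,
    Ph c m L R p (fun i => (dig (L + R) (shl (gad6 c m L R K) l z).1 i : ZMod (L + R))) =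
      Ph c m L R p (fun i => (dig (L + R) z.1 i : ZMod (L + R))) +
        (l.length : ZMod (L + R)) * L - (((l.map fun a => dst c m p a).sum : ℤ) : ZMod (L + R)) := by
  induction l with
  | nil =>
    intro z
    simp [shl]
  | cons a l ih =>
    intro z
    have h1 : shl (gad6 c m L R K) (a :: l) z =
        shl (gad6 c m L R K) l (shN c m L R 1 a z.1, z.2) := rfl
    rw [h1, ih]
    have h2 : Ph c m L R p
        (fun i => (dig (L + R) (shN c m L R 1 a z.1, z.2).1 i : ZMod (L + R))) =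
        Ph c m L R p (fun i => (dig (L + R) z.1 i : ZMod (L + R))) +
          ((L : ZMod (L + R)) - ((dst c m p a : ℤ) : ZMod (L + R))) := by
      rw [← Ph_v, ← Ph_add]
      exact Ph_congr c m L R p fun i hi => dig_sh1 c m L R a z.1 i hP hi
    rw [h2, List.length_cons, List.map_cons, List.sum_cons]
    push_cast
    ring

end

/-- **Packet GC6** -/
theorem gGC6 : GoalGC6 := by
  intro c m L R K h p hp l hl hla z hz hs b hb
  by_contra hne
  have hL := h.hL
  have hR := h.hR
  obtain ⟨M, hM⟩ : ∃ M, M = 6 * L := ⟨_, rfl⟩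
  rw [← hM] at hs hz
  have hP : 0 < M + R := by omega
  have hn : nrm c m p ≤ M := by have := h.nrm_le p hp; omega
  obtain ⟨Z, hZ⟩ : ∃ Z, Z = (gad6 c m M R K).hd p z := ⟨_, rfl⟩
  rw [← hZ] at hs
  obtain ⟨Y, hY⟩ : ∃ Y, Y = shl (gad6 c m M R K) l Z := ⟨_, rfl⟩
  rw [← hY] at hs
  have h1 : wN c m M R p (ush6 c m M R p Y.1) < R := by
    by_contra h0
    have h2 : (gad6 c m M R K).un p Y = none := if_neg h0
    rw [h2] at hs
    simp at hs
  have h2 : wN c m M R p Z.1 < R := by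
    have hZ1 : Z.1 = addm m M R z.1 (R * (wN c m M R p z.1 / R)) := by rw [hZ]; rfl
    have h3 : ((wN c m M R p Z.1 : ℕ) : ZMod (M + R)) =
        ((wN c m M R p z.1 % R : ℕ) : ZMod (M + R)) := by
      have h2 : wN c m M R p z.1 % R + R * (wN c m M R p z.1 / R) = wN c m M R p z.1 :=
        Nat.mod_add_div _ _
      have h3 : ((wN c m M R p z.1 % R : ℕ) : ZMod (M + R)) =
          ((wN c m M R p z.1 : ℕ) : ZMod (M + R)) -
            ((R * (wN c m M R p z.1 / R) : ℕ) : ZMod (M + R)) := by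
        rw [eq_sub_iff_add_eq, ← Nat.cast_add, h2]
      rw [h3, hZ1, wN_Ph c m M R p _ hP hn, wN_Ph c m M R p z.1 hP hn]
      generalize R * (wN c m M R p z.1 / R) = y
      rw [Ph_congr c m M R p (δ' := fun i => (dig (M + R) z.1 i : ZMod (M + R)) +
        (if i = m then (y : ZMod (M + R)) else 0)) (fun i hi => dig_addm m M R z.1 y i hP hi),
        Ph_add, sub_eq_add_neg]
      congr 1
      unfold Ph
      beta_reduce
      rw [if_pos rfl, if_neg (by omega : ¬ m + 1 = m)]
      have h4 : ∑ i ∈ range m, 2 * (c p i : ZMod (M + R)) *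
          (if i = m then (y : ZMod (M + R)) else 0) = 0 := by
        refine sum_eq_zero fun i hi => ?_
        have := mem_range.1 hi
        rw [if_neg (by omega : ¬ i = m), mul_zero]
      rw [h4]
      ring
    have h4 := (ZMod.natCast_eq_natCast_iff' _ _ _).1 h3
    rw [Nat.mod_eq_of_lt (wN_lt c m M R p _ hP),
      Nat.mod_eq_of_lt ((Nat.mod_lt _ (by omega : 0 < R)).trans (by omega))] at h4
    rw [h4]
    exact Nat.mod_lt _ (by omega)
  have hv : ∀ i, vN c m p i ≤ M + R := by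
    intro i
    unfold vN
    split_ifs with h1 h2
    · have := h.le p hp i h1; omega
    · have := h.nrm_le p hp; omega
    · omega
  obtain ⟨s, hsd⟩ : ∃ s, s = (l.map fun a => dst c m p a).sum := ⟨_, rfl⟩
  have h3 : ((wN c m M R p (ush6 c m M R p Y.1) : ℕ) : ZMod (M + R)) =
      ((wN c m M R p Z.1 : ℕ) : ZMod (M + R)) - ((s : ℤ) : ZMod (M + R)) := by
    rw [wN_Ph c m M R p _ hP hn, wN_Ph c m M R p Z.1 hP hn,
      Ph_congr c m M R p (δ' := fun i => (dig (M + R) Y.1 i : ZMod (M + R)) +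
        (-6) * (vN c m p i : ZMod (M + R))) (fun i hi => dig_ush6 c m M R p Y.1 i hP hi (hv i)),
      Ph_add, Ph_smul, Ph_v, dst_self, hY, Ph_shl c m M R K p hP l Z, hl, ← hsd]
    push_cast
    ring
  have hs0 : (R : ℤ) ≤ s := by
    have h4 := h.le_dst p hp b (hla b hb) (fun e => hne e.symm)
    refine h4.trans ?_
    rw [hsd]
    refine List.single_le_sum ?_ _ (List.mem_map.2 ⟨b, hb, rfl⟩)
    intro x hx
    obtain ⟨a, _, rfl⟩ := List.mem_map.1 hx
    exact dst_nonneg c m p a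
  have hs1 : s ≤ M := by
    have h4 := List.sum_le_card_nsmul (l.map fun a => dst c m p a) (L : ℤ) (by
      intro x hx
      obtain ⟨a, ha, rfl⟩ := List.mem_map.1 hx
      exact h.dst_le p hp a (hla a ha))
    rw [List.length_map, hl, ← hsd] at h4
    rw [nsmul_eq_mul] at h4
    push_cast at h4
    rw [hM]
    push_cast
    exact h4
  generalize wN c m M R p (ush6 c m M R p Y.1) = u at h1 h3
  generalize wN c m M R p Z.1 = w at h2 h3
  have h6 : (((u : ℤ) - w + s : ℤ) : ZMod (M + R)) = 0 := by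
    push_cast
    rw [h3]
    ring
  have h7 := (ZMod.intCast_zmod_eq_zero_iff_dvd _ _).1 h6
  have h8 : (0 : ℤ) < (u : ℤ) - w + s := by omega
  have h9 := Int.le_of_dvd h8 h7
  push_cast at h9
  omega

end Pool.Agent.Helper38.CTR
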